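import Pool.Agent.H.MP_61eff6_co.Main

set_option autoImplicit false

namespace Pool.Agent.Results.MP_61eff6_co.Fewer

open Pool.Agent.H.MP_61eff6_co

/-- Both (C.1) and (C.2) fail for `n = 34 s`, `δ = 30 s`. -/
theorem result :
    (∀ s : ℕ, 1 ≤ s → ∃ (V : Type) (_ : Fintype V) (G : SimpleGraph V) (_ : DecidableRel G.Adj)
      (c : Sym2 V → Bool), Fintype.card V = 34 * s ∧ G.minDegree = 30 * s ∧
        ∀ m : ℕ, 11 * s < 2 * m → ¬ HasMono G c m) ∧
    (¬ ∀ (V : Type) [Fintype V] (G : SimpleGraph V) [DecidableRel G.Adj] (c : Sym2 V → Bool),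
      25 ≤ Fintype.card V → 15 * Fintype.card V ≤ 17 * G.minDegree →
        HasMono G c ((G.minDegree + 1) / 5)) ∧
    (¬ ∀ (V : Type) [Fintype V] (G : SimpleGraph V) [DecidableRel G.Adj] (c : Sym2 V → Bool),
      25 ≤ Fintype.card V → 6 * Fintype.card V ≤ 7 * G.minDegree →
        17 * G.minDegree ≤ 15 * Fintype.card V →
        HasMono G c ((4 * G.minDegree + 1 - 3 * Fintype.card V) / 3)) := by
  refine ⟨fun s hs => ⟨VV s, inferInstance, GG s, inferInstance, cc s, card_VV s, minDeg s hs,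
    no_mono s⟩, fun h => ?_, fun h => ?_⟩
  · have := h (VV 1) (GG 1) (cc 1)
    rw [card_VV, minDeg 1 le_rfl] at this
    exact no_mono 1 _ (by norm_num) (this (by norm_num) (by norm_num))
  · have := h (VV 1) (GG 1) (cc 1)
    rw [card_VV, minDeg 1 le_rfl] at this
    exact no_mono 1 _ (by norm_num) (this (by norm_num) (by norm_num) (by norm_num))

end Pool.Agent.Results.MP_61eff6_co.Fewer
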